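import Mathlib
import Pool.Agent.H7BprDefs
import Pool.Agent.H7BprMain

/-! MP_034cab_an, Q1: the optimal growth of `S_N(f)` in the class `C` is `sqrt (log N)`. -/

namespace Pool.Agent.Results.MP_034cab_an.SqrtLogGrowth

open H7Bpr Asymptotics Filter

/-- The rate of growth of `S_N(f)` for Bloch functions with positive real part is exactly
`sqrt (log N)`:
(1) `S_N(f) = O(sqrt (log N))` for every `f` in the class;
(2) for some `f` in the class also `sqrt (log N) = O(S_N(f))`;
(3) so for some `f` in the class `S_N(f)` is not `o(sqrt (log N))`;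
(4) and `S_N(f) = o(log N)` for every `f` in the class. -/
theorem result :
    (∀ f : ℂ → ℂ, ClassC f → S f =O[atTop] fun N : ℕ => √(Real.log N)) ∧
    (∃ f : ℂ → ℂ, ClassC f ∧ (fun N : ℕ => √(Real.log N)) =O[atTop] S f) ∧
    (∃ f : ℂ → ℂ, ClassC f ∧ ¬ (S f =o[atTop] fun N : ℕ => √(Real.log N))) ∧
    (∀ f : ℂ → ℂ, ClassC f → S f =o[atTop] fun N : ℕ => Real.log N) :=
  H7Bpr.main

end Pool.Agent.Results.MP_034cab_an.SqrtLogGrowth
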